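import Mathlib

/-!
# Adjacent vertex distinguishing edge colourings with `Δ + 3` colours: definitions

`MG V E` is a loopless multigraph with vertex type `V` and edge type `E`. Colourings are functions
`c : E → K`; partial colourings are given by a finset `F` of coloured edges.
-/

set_option autoImplicit false
set_option linter.unusedSectionVars false

namespace Pool.Agent.Helper6.AVD

open Finset

/-- A loopless multigraph. -/
structure MG (V E : Type*) where
  /-- the two ends of an edge -/
  ends : E → Sym2 V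
  /-- no loops -/
  nd : ∀ e, ¬ (ends e).IsDiag

section

variable {V E K : Type*} [Fintype V] [DecidableEq V] [Fintype E] [DecidableEq E]
  [Fintype K] [DecidableEq K]

/-- edges at `v` -/
def MG.inc (M : MG V E) (v : V) : Finset E := univ.filter fun e => v ∈ M.ends e

/-- degree -/
def MG.deg (M : MG V E) (v : V) : ℕ := (M.inc v).card

/-- number of edges joining `x` and `y` -/
def MG.mult (M : MG V E) (x y : V) : ℕ := (univ.filter fun e => M.ends e = s(x, y)).card

/-- adjacency -/
def MG.Adj (M : MG V E) (x y : V) : Prop := ∃ e, M.ends e = s(x, y)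

/-- `c` is proper on the set `F` of edges -/
def ProperOn (M : MG V E) (F : Finset E) (c : E → K) : Prop :=
  ∀ v e f, e ∈ F → f ∈ F → v ∈ M.ends e → v ∈ M.ends f → c e = c f → e = f

/-- colours missing at `v` (when only the edges in `F` are coloured) -/
def misOn (M : MG V E) (F : Finset E) (c : E → K) (v : V) : Finset K :=
  univ.filter fun a => ∀ e ∈ F, v ∈ M.ends e → c e ≠ a

/-- `c` is a proper edge colouring -/
def Proper (M : MG V E) (c : E → K) : Prop := ProperOn M univ c

/-- colours missing at `v` -/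
def mis (M : MG V E) (c : E → K) (v : V) : Finset K := misOn M univ c v

/-- colours at `v` -/
def pal (M : MG V E) (c : E → K) (v : V) : Finset K := (M.inc v).image c

/-- the number of pairs `{a, π a}` with `a ∈ A`, `π a ∉ A` -/
def spl (π : K → K) (A : Finset K) : ℕ := (A.filter fun a => π a ∉ A).card

/-- the number of `v ∈ A u` with `γ ∈ m v` -/
def nn (A : V → Finset V) (m : V → Finset K) (u : V) (γ : K) : ℕ :=
  ((A u).filter fun v => γ ∈ m v).card

/-- `c'` arises from `c` by exchanging the colours `a`, `π a` on some `{a, π a}`-components. -/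
structure Step (M : MG V E) (π : K → K) (c c' : E → K) : Prop where
  proper : Proper M c'
  sig : ∃ σ : V → K → K, (∀ v a, σ v a = a ∨ σ v a = π a) ∧ (∀ v a, σ v (σ v a) = a) ∧
    ∀ v, mis M c' v = (mis M c v).image (σ v)

/-- exactly one of two propositions (used to say that `v` misses exactly one of `a`, `b`) -/
def X1 (m : Finset K) (a b : K) : Prop := (a ∈ m ∧ b ∉ m) ∨ (a ∉ m ∧ b ∈ m)

/-- `sim` : adjacent vertices of `Hi` of the same degree -/
def Sim (M : MG V E) (Hi : V → Prop) (u v : V) : Prop :=
  M.Adj u v ∧ Hi u ∧ Hi v ∧ M.deg u = M.deg v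

/-- edges joining two `Sim` vertices missing the same colours -/
def IsF (M : MG V E) (Hi : V → Prop) (c : E → K) (e : E) : Prop :=
  ∃ u v, M.ends e = s(u, v) ∧ Sim M Hi u v ∧ mis M c u = mis M c v

/-- conflict between two edges -/
def Conf (M : MG V E) (Hi : V → Prop) (c : E → K) (e e' : E) : Prop :=
  e ≠ e' ∧ ((∃ u v, u ∈ M.ends e ∧ v ∈ M.ends e' ∧ Sim M Hi u v ∧
      insert (c e) (mis M c u) = insert (c e') (mis M c v)) ∨
    (∃ u v, u ∈ M.ends e ∧ u ∈ M.ends e' ∧ Sim M Hi u v ∧
      mis M c v \ mis M c u = {c e, c e'}))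

/-- among three mutually related vertices two have palettes differing in at least `N` colours -/
def Tri (A : V → Finset V) (m : V → Finset K) (N : ℕ) : Prop :=
  ∀ u v w, v ∈ A u → w ∈ A u → u ≠ v → u ≠ w → v ≠ w →
    (N ≤ (symmDiff (m u) (m v)).card ∨ N ≤ (symmDiff (m u) (m w)).card ∨
      N ≤ (symmDiff (m v) (m w)).card)

/-- The conclusion of the random Kempe round, for all colourings and all involutions. -/
def RoundOK (K : Type*) [Fintype K] [DecidableEq K] (M : MG V E) (A₁ A₂ : V → Finset V)
    (e N : ℕ) : Prop :=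
  ∀ c : E → K, Proper M c → ∀ π : K → K, (∀ a, π (π a) = a) → ∃ c' : E → K, Step M π c c' ∧
    (∀ u γ, 2 * nn A₁ (mis M c') u γ ≤ nn A₁ (mis M c) u γ + nn A₁ (mis M c) u (π γ) + 2 * e) ∧
    ∀ u v w, v ∈ A₂ u → w ∈ A₂ u → u ≠ v → u ≠ w → v ≠ w →
      (N ≤ spl π (mis M c u) ∨ N ≤ spl π (mis M c v) ∨ N ≤ spl π (mis M c w)) →
      (N ≤ 8 * (symmDiff (mis M c' u) (mis M c' v)).card ∨
        N ≤ 8 * (symmDiff (mis M c' u) (mis M c' w)).card ∨
        N ≤ 8 * (symmDiff (mis M c' v) (mis M c' w)).card)

/-- a set of edges no two of which meet -/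
def Mtch (M : MG V E) (A : Finset E) : Prop :=
  ∀ v e f, e ∈ A → f ∈ A → v ∈ M.ends e → v ∈ M.ends f → e = f

/-- `v` is an end of an edge of `A` -/
def Cov (M : MG V E) (A : Finset E) (v : V) : Prop := ∃ e ∈ A, v ∈ M.ends e

end

end Pool.Agent.Helper6.AVD
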