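import Pool.Agent.Helper6.AVD.MainB
import Pool.Agent.Helper6.AVD.St.V4
import Pool.Agent.Helper6.AVD.St.R9
import Pool.Agent.Helper6.AVD.St.F2
import Pool.Agent.Helper6.AVD.St.G2
import Pool.Agent.Helper6.AVD.St.N1
import Pool.Agent.Helper6.AVD.St.N2
import Pool.Agent.Helper6.AVD.St.Q2

/-! Project AVD: the main theorem for multigraphs. -/

set_option autoImplicit false
set_option linter.unusedSectionVars false

namespace Pool.Agent.Helper6.AVD

open Finset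

/-- Main theorem for multigraphs. -/
theorem main_mg : ∃ D₀ : ℕ, ∀ D : ℕ, D₀ ≤ D → MainMG D := by
  classical
  obtain ⟨m₁, hm₁⟩ := num_round
  obtain ⟨m₂, hm₂⟩ := num_log
  obtain ⟨m₃, hm₃⟩ := num_sparse
  obtain ⟨D₁, hD₁⟩ := num_sides
  obtain ⟨D₂, hD₂⟩ := num_param (max (max m₁ m₂) (max m₃ 1000))
  refine ⟨max (max D₁ D₂) 1000, fun D hD => ?_⟩
  have hDa : D₁ ≤ D := le_trans (le_trans (le_max_left _ _) (le_max_left _ _)) hD
  have hDb : D₂ ≤ D := le_trans (le_trans (le_max_right _ _) (le_max_left _ _)) hD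
  have hDc : 1000 ≤ D := le_trans (le_max_right _ _) hD
  obtain ⟨m, hm, hmD, hmD2⟩ := hD₂ D hDb
  have hma : m₁ ≤ m := le_trans (le_trans (le_max_left _ _) (le_max_left _ _)) hm
  have hmb : m₂ ≤ m := le_trans (le_trans (le_max_right _ _) (le_max_left _ _)) hm
  have hmc : m₃ ≤ m := le_trans (le_trans (le_max_left _ _) (le_max_right _ _)) hm
  have hmd : 1000 ≤ m := le_trans (le_trans (le_max_right _ _) (le_max_right _ _)) hm
  intro V E _ _ _ _ M Hi hdeg hmult hHi1 hend hHi hlow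
  -- Vizing
  obtain ⟨c₁, hc₁⟩ := vizing (K := Fin (D + 1)) M
    (fun v => by rw [Fintype.card_fin]; have := hdeg v; omega) (by
      intro e
      obtain ⟨x, hx, hHx⟩ := hend e
      refine ⟨x, hx, fun y _ => ?_⟩
      rw [Fintype.card_fin]
      by_cases hy : Hi y
      · have h1 := hHi1 x y hHx hy
        have h2 := hdeg y
        omega
      · have h1 := hmult x y
        have h2 := hlow y hy
        omega)
  set A₁ : V → Finset V := fun u => univ.filter fun v => M.Adj u v ∧ Hi v ∧ D + 1 ≤ M.deg v + m ^ 16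
    with hA₁
  set A₂ : V → Finset V := fun u => univ.filter fun v => Sim M Hi u v ∧ M.deg v + m ^ 16 < D + 1
    with hA₂
  set N₀ : V → Finset V := fun u => univ.filter fun v => M.Adj u v with hN₀
  have hA₁' : ∀ u v, v ∈ A₁ u ↔ M.Adj u v ∧ Hi v ∧ D + 1 ≤ M.deg v + m ^ 16 := by
    intro u v
    simp [hA₁]
  have hA₂' : ∀ u v, v ∈ A₂ u ↔ Sim M Hi u v ∧ M.deg v + m ^ 16 < D + 1 := by
    intro u v
    simp [hA₂]
  have hN₀' : ∀ u v, v ∈ N₀ u ↔ M.Adj u v := by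
    intro u v
    simp [hN₀]
  have hN₀c : ∀ u, (N₀ u).card ≤ D := by
    intro u
    refine le_trans ?_ ((card_nbrs M u).trans (hdeg u))
    apply Finset.card_le_card
    intro v hv
    rw [hN₀'] at hv
    simp [hv]
  have h1N : ∀ u, A₁ u ⊆ N₀ u := by
    intro u v hv
    rw [hA₁'] at hv
    rw [hN₀']
    exact hv.1
  have h2N : ∀ u, A₂ u ⊆ N₀ u := by
    intro u v hv
    rw [hA₂'] at hv
    rw [hN₀']
    exact hv.1.1
  have hm15 : m ^ 15 ≤ 4 * D := by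
    have h1 : m ^ 15 ≤ m ^ 20 := Nat.pow_le_pow_right (by omega) (by norm_num)
    omega
  have hR : ∀ N, m ^ 4 ≤ N → RoundOK (Fin (D + 1)) M A₁ A₂ (m ^ 15) N := by
    intro N hN
    refine roundOK M N₀ A₁ A₂ (fun u v h => ?_) D (m ^ 15) N hN₀c h1N h2N hm15 ?_
    · rw [hN₀'] at h ⊢
      exact adj_symm h
    · have := hm₁ m hma D hmD hmD2 N hN
      rw [Fintype.card_fin]
      exact this
  -- flattening
  obtain ⟨c₂, hc₂, hflat₂⟩ := flatten_all M A₁ A₂ (m ^ 15) (m ^ 4) (hR _ le_rfl) D (m ^ 16)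
    (fun u => (Finset.card_le_card (h1N u)).trans (hN₀c u)) (by rw [Fintype.card_fin]; omega)
    (by rw [Fintype.card_fin]; omega) c₁ hc₁ (by
      intro u v hv
      rw [hA₁'] at hv
      have := card_mis M c₁ hc₁ v
      rw [Fintype.card_fin] at this
      omega)
  have hflat₂' : ∀ u γ, nn A₁ (mis M c₂) u γ ≤ 3 * m ^ 16 := by
    intro u γ
    refine (hflat₂ u γ).trans ?_
    rw [Fintype.card_fin]
    have h1 := hm₂ m hmb D hmD2
    have h2 : Nat.log 2 (D + 1) * m ^ 15 ≤ m * m ^ 15 := Nat.mul_le_mul_right _ h1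
    have h3 : m * m ^ 15 = m ^ 16 := by ring
    omega
  -- the four rounds
  have hp7 : m ^ 14 = m ^ 7 * m ^ 7 := by ring
  have hsq : Nat.sqrt (D + 1) ≤ 2 * m ^ 10 := by
    have h1 : D + 1 ≤ (2 * m ^ 10) * (2 * m ^ 10) := by
      have h2 : (2 * m ^ 10) * (2 * m ^ 10) = 4 * m ^ 20 := by ring
      have h3 : 1 ≤ m ^ 20 := Nat.one_le_pow _ _ (by omega)
      omega
    calc Nat.sqrt (D + 1) ≤ Nat.sqrt ((2 * m ^ 10) * (2 * m ^ 10)) := Nat.sqrt_le_sqrt h1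
      _ = 2 * m ^ 10 := Nat.sqrt_eq _
  have hsq2 : 16 * m ^ 7 ≤ Nat.sqrt (D + 1) := by
    rw [Nat.le_sqrt]
    have h1 : (16 * m ^ 7) * (16 * m ^ 7) = 256 * m ^ 14 := by ring
    have h2 : 1000 * m ^ 14 ≤ m ^ 20 := by
      have h3 : m ^ 20 = m ^ 6 * m ^ 14 := by ring
      have h4 : 1000 ≤ m ^ 6 := by
        calc 1000 ≤ m := hmd
          _ = m ^ 1 := (pow_one m).symm
          _ ≤ m ^ 6 := Nat.pow_le_pow_right (by omega) (by norm_num)
      rw [h3]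
      exact Nat.mul_le_mul_right _ h4
    omega
  have hbig : (16 * m ^ 7) ^ 2 + 2 * Nat.sqrt (D + 1) ≤ m ^ 16 := by
    have h1 : (16 * m ^ 7) ^ 2 = 256 * m ^ 14 := by ring
    have h2 : m ^ 16 = m * m * m ^ 14 := by ring
    have h3 : m ^ 10 ≤ m ^ 14 := Nat.pow_le_pow_right (by omega) (by norm_num)
    have h4 : 1000 * 1000 ≤ m * m := Nat.mul_le_mul hmd hmd
    have h5 : 1000 * 1000 * m ^ 14 ≤ m * m * m ^ 14 := Nat.mul_le_mul_right _ h4
    omega
  have hm16 : 10 * m ^ 16 ≤ D := by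
    have h2 : m ^ 20 = m ^ 4 * m ^ 16 := by ring
    have h4 : 10 ≤ m ^ 4 := by
      calc 10 ≤ m := by omega
        _ = m ^ 1 := (pow_one m).symm
        _ ≤ m ^ 4 := Nat.pow_le_pow_right (by omega) (by norm_num)
    have h5 : 10 * m ^ 16 ≤ m ^ 4 * m ^ 16 := Nat.mul_le_mul_right _ h4
    omega
  obtain ⟨c₃, hc₃, hflat₃, htri₃⟩ := four_rounds (D + 1) M A₁ A₂ (m ^ 15) m (3 * m ^ 16) hmd hR c₂ hc₂
    hflat₂' hsq2 (by
      intro u v hv
      rw [hA₂'] at hv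
      obtain ⟨hsim, hv2⟩ := hv
      refine ⟨hsim.2.2.2.symm, ?_, ?_⟩
      · have h1 := hHi u hsim.2.1
        omega
      · rw [hsim.2.2.2]
        omega)
  have hflat₃' : ∀ u γ, nn A₁ (mis M c₃) u γ ≤ 4 * m ^ 16 := by
    intro u γ
    refine (hflat₃ u γ).trans ?_
    have h1 : m ^ 16 = m * m ^ 15 := by ring
    have h2 : 1000 * m ^ 15 ≤ m * m ^ 15 := Nat.mul_le_mul_right _ hmd
    omega
  obtain ⟨hs1, hs2⟩ := hm₃ m hmc D hmD hmD2
  exact assemble D m hDc hmd hmD M Hi hdeg hmult hHi1 hHi (hD₁ D hDa) hs1 hs2 A₁ A₂ hA₁' hA₂' c₃ hc₃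
    hflat₃' htri₃

end Pool.Agent.Helper6.AVD
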