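import Pool.Agent.Helper6.AVD.Base
import Pool.Agent.Helper6.AVD.St.V1
import Pool.Agent.Helper6.AVD.St.C1

/-! Project AVD: auxiliary facts for the assembly. -/

set_option autoImplicit false
set_option linter.unusedSectionVars false

namespace Pool.Agent.Helper6.AVD

open Finset

variable {V E K : Type*} [Fintype V] [DecidableEq V] [Fintype E] [DecidableEq E]
  [Fintype K] [DecidableEq K]

theorem adj_symm {M : MG V E} {x y : V} (h : M.Adj x y) : M.Adj y x := by
  obtain ⟨e, he⟩ := h
  exact ⟨e, by rw [he, Sym2.eq_swap]⟩

theorem adj_ne {M : MG V E} {x y : V} (h : M.Adj x y) : x ≠ y := by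
  obtain ⟨e, he⟩ := h
  intro hxy
  have := M.nd e
  rw [he, hxy] at this
  exact this (by simp)

open Classical in
/-- the number of neighbours is at most the degree -/
theorem card_nbrs (M : MG V E) (u : V) : (univ.filter fun v => M.Adj u v).card ≤ M.deg u := by
  classical
  choose f hf using fun v : {v // M.Adj u v} => v.2
  have h1 : (univ.filter fun v => M.Adj u v).card = (univ : Finset {v // M.Adj u v}).card := by
    rw [Finset.card_univ, Fintype.card_subtype]
  rw [h1]
  refine Finset.card_le_card_of_injOn f (fun v _ => ?_) (fun v _ w _ hvw => ?_)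
  · simp only [MG.inc, Finset.coe_filter, Set.mem_setOf_eq, Finset.mem_univ, true_and]
    rw [hf v]
    exact Sym2.mem_mk_left _ _
  · have h2 := hf v
    have h3 := hf w
    rw [hvw, h3] at h2
    have := Sym2.congr_right.1 h2
    exact Subtype.ext this.symm

/-- renaming the colours -/
theorem proper_comp {K' : Type*} [Fintype K'] [DecidableEq K'] (M : MG V E) (c : E → K)
    (hc : Proper M c) (φ : K → K') (hφ : Function.Injective φ) : Proper M (fun e => φ (c e)) :=
  fun v e f he hf hve hvf hcc => hc v e f he hf hve hvf (hφ hcc)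

theorem pal_comp {K' : Type*} [Fintype K'] [DecidableEq K'] (M : MG V E) (c : E → K)
    (φ : K → K') (v : V) : pal M (fun e => φ (c e)) v = (pal M c v).image φ := by
  unfold pal
  rw [Finset.image_image]
  rfl

/-- The class relation. -/
def RR (M : MG V E) (A : V → Finset V) (c : E → K) (u v : V) : Prop := v ∈ A u ∧ mis M c u = mis M c v

open Classical in
/-- class of a vertex -/
noncomputable def cls (M : MG V E) (A : V → Finset V) (c : E → K) (u : V) : Finset V :=
  univ.filter fun w => w = u ∨ RR M A c u w

section cls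

variable {M : MG V E} {A : V → Finset V} {c : E → K}
  (hs : ∀ u v, v ∈ A u → u ∈ A v) (hne : ∀ u v, v ∈ A u → u ≠ v) (ht : Tri A (mis M c) 9)

include hs in
theorem RR_symm {u v : V} (h : RR M A c u v) : RR M A c v u := ⟨hs _ _ h.1, h.2.symm⟩

include hne ht in
theorem RR_unique {u v w : V} (h : RR M A c u v) (h' : RR M A c u w) : v = w := by
  by_contra hvw
  have := ht u v w h.1 h'.1 (hne _ _ h.1) (hne _ _ h'.1) hvw
  rw [h.2, ← h'.2, h.2] at this
  simp at this

theorem mem_cls {u w : V} : w ∈ cls M A c u ↔ w = u ∨ RR M A c u w := by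
  classical
  simp [cls]

include hs hne ht in
theorem cls_eq_of_mem {u w : V} (h : w ∈ cls M A c u) : cls M A c w = cls M A c u := by
  rw [mem_cls] at h
  rcases h with h | h
  · rw [h]
  · ext x
    rw [mem_cls, mem_cls]
    constructor
    · rintro (hx | hx)
      · exact Or.inr (hx ▸ h)
      · exact Or.inl (RR_unique hne ht hx (RR_symm hs h))
    · rintro (hx | hx)
      · exact Or.inr (hx ▸ RR_symm hs h)
      · exact Or.inl (RR_unique hne ht hx h)

theorem self_mem_cls (u : V) : u ∈ cls M A c u := mem_cls.2 (Or.inl rfl)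

include hne ht in
theorem card_cls (u : V) : (cls M A c u).card ≤ 2 := by
  by_contra hcon
  push Not at hcon
  obtain ⟨x, hx, y, hy, z, hz, hxy, hxz, hyz⟩ := Finset.two_lt_card.1 hcon
  rw [mem_cls] at hx hy hz
  rcases hx with hx | hx <;> rcases hy with hy | hy <;> rcases hz with hz | hz
  · exact hxy (hx.trans hy.symm)
  · exact hxy (hx.trans hy.symm)
  · exact hxz (hx.trans hz.symm)
  · exact hyz (RR_unique hne ht hy hz)
  · exact hyz (hy.trans hz.symm)
  · exact hxz (RR_unique hne ht hx hz)
  · exact hxy (RR_unique hne ht hx hy)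
  · exact hxy (RR_unique hne ht hx hy)

include hs hne ht in
theorem card_fiber (a : Finset V) : (univ.filter fun v => cls M A c v = a).card ≤ 2 := by
  classical
  by_cases h : ∃ v, cls M A c v = a
  · obtain ⟨v, hv⟩ := h
    refine le_trans (Finset.card_le_card ?_) (card_cls hne ht v)
    intro w hw
    rw [Finset.mem_filter] at hw
    rw [hv, ← hw.2]
    exact self_mem_cls w
  · have : (univ.filter fun v => cls M A c v = a) = ∅ := by
      rw [Finset.filter_eq_empty_iff]
      intro v _ hv
      exact h ⟨v, hv⟩
    rw [this]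
    simp

include hs hne ht in
theorem cls_disjoint {u v : V} (h : cls M A c u ≠ cls M A c v) :
    Disjoint (cls M A c u) (cls M A c v) := by
  rw [Finset.disjoint_left]
  intro x hx hx'
  exact h ((cls_eq_of_mem hs hne ht hx).symm.trans (cls_eq_of_mem hs hne ht hx'))

end cls

end Pool.Agent.Helper6.AVD
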