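import Pool.Agent.Helper6.AVD.MainA
import Pool.Agent.Helper6.AVD.St.C1
import Pool.Agent.Helper6.AVD.St.C2
import Pool.Agent.Helper6.AVD.St.S1
import Pool.Agent.Helper6.AVD.St.T3
import Pool.Agent.Helper6.AVD.St.H3

/-! Project AVD: from a good `(Δ+1)`-colouring to the final colouring. -/

set_option autoImplicit false
set_option linter.unusedSectionVars false

namespace Pool.Agent.Helper6.AVD

open Finset

variable {V E : Type} [Fintype V] [DecidableEq V] [Fintype E] [DecidableEq E]

open Classical in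
theorem card_F_edges {K : Type*} [Fintype K] [DecidableEq K] (M : MG V E) (Hi : V → Prop)
    (c : E → K) (hHi1 : ∀ x y, Hi x → Hi y → M.mult x y ≤ 1) (v : V) :
    (univ.filter fun e => v ∈ M.ends e ∧ IsF M Hi c e).card ≤
      (univ.filter fun w => Sim M Hi v w ∧ mis M c v = mis M c w).card := by
  classical
  have hex : ∀ e : {e // v ∈ M.ends e ∧ IsF M Hi c e}, ∃ w, M.ends e.1 = s(v, w) ∧
      Sim M Hi v w ∧ mis M c v = mis M c w := by
    rintro ⟨e, hv, u, w, he, hs, hm⟩
    dsimp only
    rw [he, Sym2.mem_iff] at hv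
    rcases hv with rfl | rfl
    · exact ⟨w, he, hs, hm⟩
    · exact ⟨u, by rw [he, Sym2.eq_swap], sim_symm hs, hm.symm⟩
  choose f hf using hex
  have h1 : (univ.filter fun e => v ∈ M.ends e ∧ IsF M Hi c e).card =
      (univ : Finset {e // v ∈ M.ends e ∧ IsF M Hi c e}).card := by
    rw [Finset.card_univ, Fintype.card_subtype]
  rw [h1]
  refine Finset.card_le_card_of_injOn f (fun e _ => ?_) (fun e _ e' _ hee => ?_)
  · rw [Finset.mem_coe, Finset.mem_filter]
    exact ⟨Finset.mem_univ _, (hf e).2⟩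
  · obtain ⟨h2, h3, -⟩ := hf e
    obtain ⟨h4, -, -⟩ := hf e'
    rw [← hee] at h4
    have h5 := hHi1 v (f e) h3.2.1 h3.2.2.1
    unfold MG.mult at h5
    rw [Finset.card_le_one] at h5
    exact Subtype.ext (h5 _ (by simp [h2]) _ (by simp [h4]))

/-- The last part of the proof. -/
theorem assemble (D m : ℕ) (hD : 1000 ≤ D) (hm : 1000 ≤ m) (hDm : m ^ 20 ≤ D)
    (M : MG V E) (Hi : V → Prop)
    (hdeg : ∀ v, M.deg v ≤ D) (hmult : ∀ x y, M.mult x y ≤ 2)
    (hHi1 : ∀ x y, Hi x → Hi y → M.mult x y ≤ 1) (hHi : ∀ x, Hi x → 3 * D < 10 * M.deg x)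
    (hsides : 4 * (2 * ((D : ℝ) + 1) ^ 2) * (4 * Real.exp (-((D : ℝ) / 640000))) ≤ 1)
    (hsp1 : 2 * ((40 : ℕ) : ℝ) * (1 + (40 : ℕ)) ≤ 1 / (m : ℝ) ^ 19 * D / 200)
    (hsp2 : 4 * ((D : ℝ) * (1 + (24 * m ^ 16 : ℕ)) * (2 * (1 + (24 * m ^ 16 : ℕ)))) *
      (2 * Real.exp (-(1 / (m : ℝ) ^ 19 * D / 160000)) +
        (D * (24 * m ^ 16 : ℕ) * (1 / (m : ℝ) ^ 19) ^ 2) ^ 40 +
        D * (1 + (24 * m ^ 16 : ℕ)) * ((24 * m ^ 16 : ℕ) * (1 / (m : ℝ) ^ 19)) ^ 40) ≤ 1)
    (A₁ A₂ : V → Finset V) (hA₁ : ∀ u v, v ∈ A₁ u ↔ M.Adj u v ∧ Hi v ∧ D + 1 ≤ M.deg v + m ^ 16)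
    (hA₂ : ∀ u v, v ∈ A₂ u ↔ Sim M Hi u v ∧ M.deg v + m ^ 16 < D + 1)
    (c : E → Fin (D + 1)) (hc : Proper M c) (hflat : ∀ u γ, nn A₁ (mis M c) u γ ≤ 4 * m ^ 16)
    (htri : Tri A₂ (mis M c) 9) :
    ∃ c' : E → Fin (D + 3), Proper M c' ∧ ∀ u v, Sim M Hi u v → pal M c' u ≠ pal M c' v := by
  classical
  have hs : ∀ u v, v ∈ A₂ u → u ∈ A₂ v := by
    intro u v h
    rw [hA₂] at h ⊢
    exact ⟨sim_symm h.1, by rw [h.1.2.2.2]; exact h.2⟩
  have hne : ∀ u v, v ∈ A₂ u → u ≠ v := by
    intro u v h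
    rw [hA₂] at h
    exact adj_ne h.1.1
  -- conflicts
  have hA : ∀ u, (∀ v, Sim M Hi u v → v ∈ A₁ u) ∨ (∀ v, Sim M Hi u v → v ∈ A₂ u) := by
    intro u
    by_cases hu : D + 1 ≤ M.deg u + m ^ 16
    · left
      intro v hv
      rw [hA₁]
      exact ⟨hv.1, hv.2.2.1, by rw [← hv.2.2.2]; exact hu⟩
    · right
      intro v hv
      rw [hA₂]
      exact ⟨hv, by rw [← hv.2.2.2]; omega⟩
  have hm16 : 1 ≤ m ^ 16 := Nat.one_le_pow _ _ (by omega)
  set nb : E → Finset E := fun e => univ.filter fun f => Conf M Hi c e f with hnb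
  have hnbc : ∀ e, (nb e).card ≤ 24 * m ^ 16 := by
    intro e
    have := conf_card M Hi c hc A₁ A₂ (4 * m ^ 16) (by omega) hflat htri hA
      (fun u => by rw [Fintype.card_fin]; have := hdeg u; omega) e
    rw [hnb]
    dsimp only
    omega
  have hnbs : ∀ e f, f ∈ nb e → e ∈ nb f := by
    intro e f h
    rw [hnb] at h ⊢
    simp only [Finset.mem_filter, Finset.mem_univ, true_and] at h ⊢
    exact conf_symm h
  have hnbi : ∀ e, e ∉ nb e := by
    intro e h
    rw [hnb] at h
    simp only [Finset.mem_filter, Finset.mem_univ, true_and] at h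
    exact h.1 rfl
  -- the F edges and the sides
  set F : Finset E := univ.filter fun e => IsF M Hi c e with hFdef
  have hFcl : ∀ e, e ∉ F → ∀ u w, M.ends e = s(u, w) → cls M A₂ c u ≠ cls M A₂ c w := by
    intro e he u w huw hcl
    apply he
    rw [hFdef, Finset.mem_filter]
    refine ⟨Finset.mem_univ _, ?_⟩
    have h1 : u ∈ cls M A₂ c w := hcl ▸ self_mem_cls u
    rw [mem_cls] at h1
    rcases h1 with h1 | h1
    · exact absurd h1 (adj_ne ⟨e, huw⟩)
    · have h2 := RR_symm hs h1
      exact ⟨u, w, huw, ((hA₂ _ _).1 h2.1).1, h2.2⟩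
  obtain ⟨side, hside, hcross⟩ := sides M D hdeg hmult (cls M A₂ c) (card_fiber hs hne htri) F hFcl
    hsides
  -- the sparse subgraph
  set Ec : Finset E := univ.filter fun e => e ∉ F ∧ ∃ u ∈ M.ends e, ∃ w ∈ M.ends e, side u ≠ side w
    with hEc
  have hEcv : ∀ v, (Ec.filter fun e => v ∈ M.ends e) = crossing M F side v := by
    intro v
    ext e
    simp only [hEc, crossing, MG.inc, Finset.mem_filter, Finset.mem_univ, true_and]
    exact and_comm
  have hmpos : (0 : ℝ) < (m : ℝ) ^ 19 := by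
    have : (0 : ℝ) < (m : ℝ) := by exact_mod_cast (by omega : 0 < m)
    positivity
  have hm1 : (1 : ℝ) ≤ (m : ℝ) ^ 19 := by
    have : (1 : ℝ) ≤ (m : ℝ) := by exact_mod_cast (by omega : 1 ≤ m)
    exact one_le_pow₀ this
  set p : ℝ := 1 / (m : ℝ) ^ 19 with hp
  have hp0 : 0 < p := by positivity
  have hp1 : p ≤ 1 := by
    rw [hp, div_le_one hmpos]
    exact hm1
  obtain ⟨G, hGE, hGconf, hGdeg⟩ := sparsify M D (24 * m ^ 16) 40 (by omega) hdeg Ec nb hnbs hnbi
    hnbc p hp0.le hp1 hsp1 hsp2
  have hDR : (1000 : ℝ) ≤ (D : ℝ) := by exact_mod_cast hD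
  have hD0 : (0 : ℝ) < D := by linarith
  -- degrees
  have hup : ∀ v, ((G.filter fun e => v ∈ M.ends e).card : ℝ) ≤ 2 * (0.2575 * p * D) := by
    intro v
    have h1 := (abs_le.1 (hGdeg v)).2
    rw [hEcv v] at h1
    have h2 := (abs_le.1 (hcross v)).2
    have h3 : ((nonF M F v).card : ℝ) ≤ D := by
      have : (nonF M F v).card ≤ M.deg v := Finset.card_filter_le _ _
      exact_mod_cast this.trans (hdeg v)
    have h4 : ((crossing M F side v).card : ℝ) ≤ 0.505 * D := by linarith
    have h5 := mul_le_mul_of_nonneg_left h4 hp0.le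
    nlinarith
  have hlo : ∀ v, p * ((nonF M F v).card / 2 - 0.015 * D) ≤
      ((G.filter fun e => v ∈ M.ends e).card : ℝ) := by
    intro v
    have h1 := (abs_le.1 (hGdeg v)).1
    rw [hEcv v] at h1
    have h2 := (abs_le.1 (hcross v)).1
    have h4 : ((nonF M F v).card : ℝ) / 2 - 0.005 * D ≤ ((crossing M F side v).card : ℝ) := by
      linarith
    have h5 := mul_le_mul_of_nonneg_left h4 hp0.le
    nlinarith
  -- non F edges
  have hnonF : ∀ v, (M.deg v : ℝ) - ((univ.filter fun w => Sim M Hi v w ∧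
      mis M c v = mis M c w).card : ℝ) ≤ (nonF M F v).card := by
    intro v
    have h1 : M.deg v ≤ (nonF M F v).card +
        (univ.filter fun e => v ∈ M.ends e ∧ IsF M Hi c e).card := by
      unfold MG.deg nonF
      rw [← Finset.card_union_of_disjoint]
      · apply Finset.card_le_card
        intro e he
        rw [Finset.mem_union]
        by_cases heF : IsF M Hi c e
        · right
          simp only [MG.inc, Finset.mem_filter, Finset.mem_univ, true_and] at he ⊢
          exact ⟨he, heF⟩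
        · left
          rw [Finset.mem_filter]
          refine ⟨he, ?_⟩
          simp [hFdef, heF]
      · rw [Finset.disjoint_left]
        intro e he he'
        rw [Finset.mem_filter] at he he'
        apply he.2
        simp [hFdef, he'.2.2]
    have h2 := card_F_edges M Hi c hHi1 v
    have h3 : (M.deg v : ℝ) ≤ (nonF M F v).card + ((univ.filter fun w => Sim M Hi v w ∧
      mis M c v = mis M c w).card : ℝ) := by exact_mod_cast (by omega)
    linarith
  -- units
  set T : V → Prop := fun v => Hi v ∧ D + 1 ≤ M.deg v + m ^ 16 with hT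
  set U : Finset (Finset V) := (univ.filter fun v => T v ∨ ∃ w, RR M A₂ c v w).image (cls M A₂ c)
    with hU
  have hclsT : ∀ v, T v → cls M A₂ c v = {v} := by
    intro v hv
    ext w
    rw [mem_cls, Finset.mem_singleton]
    constructor
    · rintro (h | h)
      · exact h
      · exfalso
        have h1 := (hA₂ _ _).1 h.1
        rw [← h1.1.2.2.2] at h1
        have := hv.2
        omega
    · exact fun h => Or.inl h
  have hUdisj : ∀ S ∈ U, ∀ S' ∈ U, S ≠ S' → Disjoint S S' := by
    intro S hS S' hS' hSS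
    rw [hU, Finset.mem_image] at hS hS'
    obtain ⟨u, -, rfl⟩ := hS
    obtain ⟨v, -, rfl⟩ := hS'
    exact cls_disjoint hs hne htri hSS
  have hUne : ∀ S ∈ U, S.Nonempty := by
    intro S hS
    rw [hU, Finset.mem_image] at hS
    obtain ⟨u, -, rfl⟩ := hS
    exact ⟨u, self_mem_cls u⟩
  have hUside : ∀ S ∈ U, ∀ x ∈ S, ∀ y ∈ S, side x = side y := by
    intro S hS x hx y hy
    rw [hU, Finset.mem_image] at hS
    obtain ⟨u, -, rfl⟩ := hS
    exact hside x y ((cls_eq_of_mem hs hne htri hx).trans (cls_eq_of_mem hs hne htri hy).symm)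
  have hm16R : (5 : ℝ) * (m : ℝ) ^ 16 ≤ 0.4 * D := by
    have h1 : ((m ^ 20 : ℕ) : ℝ) ≤ D := by exact_mod_cast hDm
    push_cast at h1
    have h2 : (1000 : ℝ) ≤ (m : ℝ) := by exact_mod_cast hm
    have h3 : (m : ℝ) ^ 20 = (m : ℝ) ^ 16 * (m : ℝ) ^ 4 := by ring
    have h4 : (1000 : ℝ) ≤ (m : ℝ) ^ 4 := by nlinarith [pow_le_pow_left₀ (by norm_num) h2 4]
    have h5 : (0 : ℝ) ≤ (m : ℝ) ^ 16 := by positivity
    nlinarith
  have hUlow : ∀ S ∈ U, 0.2575 * p * D ≤ ∑ x ∈ S, ((G.filter fun e => x ∈ M.ends e).card : ℝ) := by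
    intro S hS
    rw [hU, Finset.mem_image] at hS
    obtain ⟨u, hu, rfl⟩ := hS
    rw [Finset.mem_filter] at hu
    by_cases hTu : T u
    · rw [hclsT u hTu, Finset.sum_singleton]
      refine le_trans ?_ (hlo u)
      have h1 := hnonF u
      have hdu := hdeg u
      have hcard := card_mis M c hc u
      rw [Fintype.card_fin] at hcard
      obtain ⟨γ, hγ⟩ : (mis M c u).Nonempty := by
        rw [← Finset.card_pos]
        omega
      have h2 : (univ.filter fun w => Sim M Hi u w ∧ mis M c u = mis M c w).card ≤ 4 * m ^ 16 := by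
        refine le_trans (Finset.card_le_card ?_) (hflat u γ)
        intro w hw
        rw [Finset.mem_filter] at hw ⊢
        refine ⟨(hA₁ _ _).2 ⟨hw.2.1.1, hw.2.1.2.2.1, ?_⟩, hw.2.2 ▸ hγ⟩
        rw [← hw.2.1.2.2.2]
        exact hTu.2
      have h2' : ((univ.filter fun w => Sim M Hi u w ∧ mis M c u = mis M c w).card : ℝ) ≤
          4 * (m : ℝ) ^ 16 := by exact_mod_cast h2
      have h3 : (D : ℝ) + 1 ≤ M.deg u + (m : ℝ) ^ 16 := by exact_mod_cast hTu.2
      have h4 : (0.2575 : ℝ) * D ≤ ((nonF M F u).card : ℝ) / 2 - 0.015 * D := by linarith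
      have h5 := mul_le_mul_of_nonneg_left h4 hp0.le
      linarith
    · rcases hu.2 with h | ⟨w, hw⟩
      · exact absurd h hTu
      · have hcl : cls M A₂ c u = {u, w} := by
          ext x
          rw [mem_cls, Finset.mem_insert, Finset.mem_singleton]
          constructor
          · rintro (h | h)
            · exact Or.inl h
            · exact Or.inr (RR_unique hne htri h hw)
          · rintro (h | h)
            · exact Or.inl h
            · exact Or.inr (h ▸ hw)
        rw [hcl, Finset.sum_pair (hne _ _ hw.1)]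
        have hone : ∀ v, (∃ x, RR M A₂ c v x) → Hi v → ¬ T v →
            0.5 * (0.2575 * p * D) ≤ ((G.filter fun e => v ∈ M.ends e).card : ℝ) := by
          rintro v ⟨x, hx⟩ hHv hTv
          refine le_trans ?_ (hlo v)
          have h1 := hnonF v
          have h2 : (univ.filter fun w => Sim M Hi v w ∧ mis M c v = mis M c w).card ≤ 1 := by
            rw [Finset.card_le_one]
            intro a ha b hb
            rw [Finset.mem_filter] at ha hb
            have hin : ∀ a, Sim M Hi v a → a ∈ A₂ v := by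
              intro a ha
              rw [hA₂]
              refine ⟨ha, ?_⟩
              rw [← ha.2.2.2]
              by_contra hcon
              exact hTv ⟨hHv, by omega⟩
            exact RR_unique hne htri ⟨hin a ha.2.1, ha.2.2⟩ ⟨hin b hb.2.1, hb.2.2⟩
          have h2' : ((univ.filter fun w => Sim M Hi v w ∧ mis M c v = mis M c w).card : ℝ) ≤
              1 := by exact_mod_cast h2
          have h3 : (3 : ℝ) * D < 10 * M.deg v := by exact_mod_cast hHi v hHv
          have h4 : (0.5 : ℝ) * (0.2575 * D) ≤ ((nonF M F v).card : ℝ) / 2 - 0.015 * D := by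
            linarith
          have h5 := mul_le_mul_of_nonneg_left h4 hp0.le
          linarith
        have hsim := ((hA₂ _ _).1 hw.1).1
        have hTw : ¬ T w := by
          intro h
          apply hTu
          refine ⟨hsim.2.1, ?_⟩
          rw [hsim.2.2.2]
          exact h.2
        have h1 := hone u ⟨w, hw⟩ hsim.2.1 hTu
        have h2 := hone w ⟨u, RR_symm hs hw⟩ hsim.2.2.1 hTw
        linarith
  have hGcross : ∀ e ∈ G, ∀ u v, M.ends e = s(u, v) → side u ≠ side v := by
    intro e he u v huv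
    have h1 := hGE he
    rw [hEc, Finset.mem_filter] at h1
    obtain ⟨-, -, x, hx, y, hy, hxy⟩ := h1
    rw [huv, Sym2.mem_iff] at hx hy
    rcases hx with rfl | rfl <;> rcases hy with rfl | rfl
    · exact absurd rfl hxy
    · exact hxy
    · exact fun h => hxy h.symm
    · exact absurd rfl hxy
  obtain ⟨A, B, hAG, hBG, hAB, hAm, hBm, hcov⟩ := two_matchings M side G hGcross U hUside hUne
    hUdisj (0.2575 * p * D) (by positivity) hup hUlow
  have hABG : ∀ e ∈ A ∪ B, e ∈ G := by
    intro e he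
    rcases Finset.mem_union.1 he with h | h
    · exact hAG h
    · exact hBG h
  have hkey : ∀ u v, Sim M Hi u v → pal M (newc c A B) u ≠ pal M (newc c A B) v := by
    intro u v huv
    refine key_fact M Hi c hc A B hAm hBm hAB ?_ ?_ u v huv ?_
    · intro e he f hf hef
      apply hGconf e (hABG e he) f (hABG f hf)
      rw [hnb]
      simp [hef]
    · intro e he hF'
      have h1 := hGE (hABG e he)
      rw [hEc, Finset.mem_filter] at h1
      apply h1.2.1
      simp [hFdef, hF']
    · by_cases hmm : mis M c u = mis M c v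
      · right
        by_cases hTu : T u
        · left
          obtain ⟨x, hx, hxc⟩ := hcov {u} (by
            rw [hU, Finset.mem_image]
            exact ⟨u, by simp [hTu], hclsT u hTu⟩)
          rw [Finset.mem_singleton] at hx
          exact hx ▸ hxc
        · have hv2 : v ∈ A₂ u := by
            rw [hA₂]
            refine ⟨huv, ?_⟩
            rw [← huv.2.2.2]
            by_contra hcon
            exact hTu ⟨huv.2.1, by omega⟩
          have hR : RR M A₂ c u v := ⟨hv2, hmm⟩
          obtain ⟨x, hx, hxc⟩ := hcov (cls M A₂ c u) (by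
            rw [hU, Finset.mem_image]
            exact ⟨u, by simp only [Finset.mem_filter, Finset.mem_univ, true_and]; exact Or.inr ⟨v, hR⟩, rfl⟩)
          rw [mem_cls] at hx
          rcases hx with hx | hx
          · left
            exact hx ▸ hxc
          · right
            rw [RR_unique hne htri hR hx]
            exact hxc
      · exact Or.inl hmm
  have hcardK : Fintype.card (Fin (D + 1) ⊕ Bool) = D + 3 := by
    simp
  set φ : (Fin (D + 1) ⊕ Bool) ≃ Fin (D + 3) := Fintype.equivFinOfCardEq hcardK with hφ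
  refine ⟨fun e => φ (newc c A B e), proper_comp M _ (newc_proper M c hc A B hAm hBm) φ φ.injective, ?_⟩
  intro u v huv h
  rw [pal_comp M (newc c A B) φ u, pal_comp M (newc c A B) φ v] at h
  exact hkey u v huv (Finset.image_injective φ.injective h)

end Pool.Agent.Helper6.AVD
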